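import Pool.Agent.Q62.DP.Main

set_option autoImplicit false

namespace Pool.Agent.Results.MP_178ab7_mp.WeakCoupling

open Q62.DP

/-- For every arc of class `C²` the form of the delta-prime interaction is nonnegative for all
strengths below a positive constant: there is no negative spectrum in the weak coupling regime. -/
theorem result : ∀ a b : ℝ → ℝ, IsArc a b → ∃ w₀ : ℝ, 0 < w₀ ∧
    ∀ w : ℝ, w ≤ w₀ → ∀ u g h : ℝ × ℝ → ℂ, InH1 (arc a b) u g h →
      ∀ J : ℝ → ℂ, IsJump a b u g h J → 0 ≤ form a b w g h J :=
  fun _ _ hab => form_nonneg hab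

end Pool.Agent.Results.MP_178ab7_mp.WeakCoupling
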